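import Pool.Agent.H8.Hz4

namespace Pool.Agent.Results.MP_7acacd_co.Classes

open Pool.Agent.H8.Hz

theorem result (k : ℕ) (hk : 3 ≤ k) : Nat.card (Quotient (wilf k)) =
    {S : Set ℕ | ∃ w : List Bool, w.length = k + 1 ∧ w.reverse = w ∧ S = palPrefixes w}.ncard :=
  classes hk

end Pool.Agent.Results.MP_7acacd_co.Classes
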